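import Mathlib
import Pool.Agent.Q116.MC.Final

/-!
# Covering thresholds for matroids by flats of bounded rank (MP_6a60a4_co, Q1: false)

Take `𝔽₇²` without the origin, the lines of `𝔽₇²` missing the origin (48 blocks with 7 points, in
8 parallel classes of 6), and on the 6 remaining points of each line through the origin put a
triangle with the midpoints of its sides (three 3-point lines).  Every proper restriction of the
rank-3 matroid of this linear space on 48 points is a union of 8 flats of rank at most 2 (delete a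
point `x`: six blocks parallel to the line `0x` and two lines covering the other five points of
that group), but the matroid is not.  As `48 > 45 = C(8+1+1, 1+1)`, Q1 fails for `t = 8`, `k = 1`,
`V = {(1,1,1,1,1,1,1,1)}`.
-/

namespace Pool.Agent.Results.MP_6a60a4_co.FortyEightPoints

open scoped Matroid

/-- A dimension vector: a non-increasing tuple of natural numbers. -/
def IsDimVector (v : List ℕ) : Prop := v.Pairwise (fun a b => b ≤ a)

/-- `M` is covered by `v = (v_1, …, v_t)`: its ground set is the union of flats `L_1, …, L_t` with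
`r(L_i) ≤ v_i + 1`. -/
def CoveredByVector {α : Type} (M : Matroid α) (v : List ℕ) : Prop :=
  ∃ L : Fin v.length → Set α,
    (∀ i, M.IsFlat (L i) ∧ M.eRk (L i) ≤ ((v.get i + 1 : ℕ) : ℕ∞)) ∧ ⋃ i, L i = M.E

/-- `M` is covered by the set `V`. -/
def CoveredBy {α : Type} (M : Matroid α) (V : Set (List ℕ)) : Prop :=
  ∃ v ∈ V, CoveredByVector M v

/-- Simple: no loops and no parallel elements. -/
def IsSimple {α : Type} (M : Matroid α) : Prop :=
  ∀ e ∈ M.E, ∀ f ∈ M.E, M.Indep {e, f}

/-- `C_𝓜(V) ≤ N`: every finite simple matroid all of whose restrictions to at most `N` elements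
are covered by `V` is covered by `V`. -/
def ThresholdLE (V : Set (List ℕ)) (N : ℕ) : Prop :=
  ∀ (α : Type) (M : Matroid α), M.Finite → IsSimple M →
    (∀ X ⊆ M.E, X.ncard ≤ N → CoveredBy (M ↾ X) V) → CoveredBy M V

/-- The statement of Q1. -/
def Q1 : Prop :=
  ∀ (t k : ℕ) (V : Set (List ℕ)), 1 ≤ t → (∀ v ∈ V, IsDimVector v ∧ v.length ≤ t) →
    (∀ v ∈ V, ∀ x ∈ v, x ≤ k) → (∃ v ∈ V, k ∈ v) → ThresholdLE V (Nat.choose (t + k + 1) (k + 1))

/-- The vector `(1,1,1,1,1,1,1,1)`. -/
def ones : List ℕ := List.replicate 8 1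

lemma get_ones (i : Fin ones.length) : ones.get i = 1 :=
  List.eq_of_mem_replicate (List.get_mem ones i)

/-- **Result.** There is a simple matroid of rank 3 on 48 elements all of whose proper restrictions
are unions of 8 flats of rank at most 2, while the matroid itself is not. In particular Q1 is
false. -/
theorem result :
    (∃ (α : Type) (M : Matroid α), M.Finite ∧ IsSimple M ∧ M.E.ncard = 48 ∧ M.eRank = 3 ∧
      (∀ X ⊂ M.E, CoveredBy (M ↾ X) {ones}) ∧ ¬ CoveredBy M {ones}) ∧ ¬ Q1 := by
  have hsimple : IsSimple Q116.MC.M48 := by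
    intro e _ f _
    by_cases hef : e = f
    · subst hef
      obtain ⟨f, hf⟩ : ∃ f : Q116.MC.Pt, e ≠ f := by
        rcases eq_or_ne e (0, 0) with h | h
        · exact ⟨(0, 1), by rw [h]; decide⟩
        · exact ⟨(0, 0), h⟩
      have h := (Q116.MC.mat_indep (h1 := Q116.MC.longLines_lin)
        (h2 := Q116.MC.exists_base) {e, f}).mpr (Q116.MC.pair_base hf)
      apply h.subset
      intro x hx
      simp only [Set.mem_insert_iff, Set.mem_singleton_iff, or_self] at hx
      rw [hx]; simp
    · exact Q116.MC.pair_base hef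
  have hfin : Q116.MC.M48.Finite := ⟨Set.toFinite _⟩
  have hcard : Q116.MC.M48.E.ncard = 48 := by
    rw [Q116.MC.M48_E, Set.ncard_univ, Nat.card_eq_fintype_card]
    rfl
  have hrank : Q116.MC.M48.eRank = 3 := by
    obtain ⟨B, hB⟩ := Q116.MC.exists_base
    have h1 : Q116.MC.M48.IsBase B := hB
    rw [← h1.encard_eq_eRank, ← (Q116.MC.base3_finite hB).cast_ncard_eq, hB.1]
    rfl
  have hcov : ∀ X : Set Q116.MC.Pt, X ≠ Set.univ → CoveredBy (Q116.MC.M48 ↾ X) {ones} := by
    intro X hX
    obtain ⟨L, hL, hLX⟩ := Q116.MC.restr_cover X hX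
    refine ⟨ones, rfl, fun i => L (Fin.cast (by simp [ones]) i), ?_, ?_⟩
    · intro i
      refine ⟨(hL _).1, ?_⟩
      have : ones.get i = 1 := get_ones i
      rw [this]
      exact (hL _).2
    · rw [Matroid.restrict_ground_eq, ← hLX]
      apply Set.Subset.antisymm
      · exact Set.iUnion_subset (fun i => Set.subset_iUnion L _)
      · apply Set.iUnion_subset
        intro i
        exact Set.subset_iUnion (fun i : Fin ones.length => L (Fin.cast (by simp [ones]) i))
          (Fin.cast (by simp [ones]) i)
  have hnot : ¬ CoveredBy Q116.MC.M48 {ones} := by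
    rintro ⟨v, hv, L, hL, hLU⟩
    rw [Set.mem_singleton_iff] at hv
    subst hv
    apply Q116.MC.not_cover (fun i => L (Fin.cast (by simp [ones]) i))
    · intro i
      have h := (hL (Fin.cast (by simp [ones]) i)).2
      have h1 : ones.get (Fin.cast (by simp [ones]) i) = 1 := get_ones _
      rw [h1] at h
      exact h
    · rw [Q116.MC.M48_E] at hLU
      rw [Set.eq_univ_iff_forall] at hLU ⊢
      intro p
      have hp := hLU p
      rw [Set.mem_iUnion] at hp ⊢
      obtain ⟨i, hi⟩ := hp
      exact ⟨Fin.cast (by simp [ones]) i, hi⟩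
  refine ⟨⟨Q116.MC.Pt, Q116.MC.M48, hfin, hsimple, hcard, hrank, ?_, hnot⟩, ?_⟩
  · intro X hX
    exact hcov X (by rw [← Q116.MC.M48_E]; exact hX.ne)
  · intro hQ
    apply hnot
    have h := hQ 8 1 {ones} (by norm_num) ?_ ?_ ?_
    · apply h _ _ hfin hsimple
      intro X _ hX
      apply hcov
      rintro rfl
      rw [← Q116.MC.M48_E, hcard] at hX
      revert hX
      decide
    · intro v hv
      rw [Set.mem_singleton_iff] at hv
      subst hv
      constructor
      · unfold IsDimVector ones
        decide
      · simp [ones]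
    · intro v hv x hx
      rw [Set.mem_singleton_iff] at hv
      subst hv
      exact (List.eq_of_mem_replicate hx).le
    · exact ⟨ones, rfl, by simp [ones]⟩

end Pool.Agent.Results.MP_6a60a4_co.FortyEightPoints
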